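import Pool.Agent.LQA18.Main

set_option autoImplicit false

/-!
# Lipschitz quotient maps which attain their Lipschitz constant

Let `p` be an equivalent norm on `X` which is Fréchet differentiable off `0`, let `N` be an
equivalent norm on `Y` and let `f : X → Y` be `1`-Lipschitz from `p` to `N`.  If `f` is co-Lipschitz
and every nonzero vector of `Y` contains an attained slope of `f`, or if `f` maps every closed ball
of `p` onto the closed ball of `N` with the same radius, then `N` is Fréchet differentiable off `0`,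
so `Y` has a Fréchet differentiable bump.
-/

namespace Pool.Agent.Results.MP_8a3d3f_an.AttainedSlopes

open Pool.Agent.LQA18

theorem result {X Y : Type*} [NormedAddCommGroup X] [NormedSpace ℝ X]
    [NormedAddCommGroup Y] [NormedSpace ℝ Y]
    {p : X → ℝ} (hp : EquivNorm p) (hpd : ∀ x : X, x ≠ 0 → DifferentiableAt ℝ p x)
    {N : Y → ℝ} (hN : EquivNorm N)
    {f : X → Y} (hf : ∀ x x' : X, N (f x - f x') ≤ p (x - x'))
    (h : ((∃ c : ℝ, 0 < c ∧ ∀ x : X, ∀ r : ℝ, 0 < r →
            Metric.ball (f x) (c * r) ⊆ f '' Metric.ball x r) ∧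
          ∀ v : Y, v ≠ 0 → ∃ a b : X, ∃ t : ℝ, a ≠ b ∧ 0 < t ∧
            N (v - t • (f b - f a)) ≤ N v - t * p (b - a)) ∨
        (∀ x : X, ∀ y : Y, ∃ x' : X, f x' = y ∧ p (x' - x) ≤ N (y - f x))) :
    (∀ v : Y, v ≠ 0 → DifferentiableAt ℝ N v) ∧
      ∃ φ : Y → ℝ, (∀ y : Y, DifferentiableAt ℝ φ y) ∧ φ ≠ 0 ∧
        Bornology.IsBounded (Function.support φ) := by
  have key : ((∃ c : ℝ, 0 < c ∧ ∀ x : X, ∀ r : ℝ, 0 < r →
            Metric.ball (f x) (c * r) ⊆ f '' Metric.ball x r) ∧
          ∀ v : Y, v ≠ 0 → ∃ a b : X, ∃ t : ℝ, a ≠ b ∧ 0 < t ∧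
            N (v - t • (f b - f a)) ≤ N v - t * p (b - a)) := by
    rcases h with h | h
    · exact h
    · obtain ⟨a, b, ha, hb, hab⟩ := hp.equiv
      obtain ⟨a', b', ha', hb', hab'⟩ := hN.equiv
      refine ⟨⟨a / b', by positivity, fun x r hr y hy => ?_⟩, fun v hv => ?_⟩
      · obtain ⟨x', hx', hle⟩ := h x y
        refine ⟨x', ?_, hx'⟩
        rw [Metric.mem_ball, dist_eq_norm] at hy ⊢
        have h1 := (hab (x' - x)).1
        have h2 := (hab' (y - f x)).2
        have h3 : b' * ‖y - f x‖ < a * r := by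
          calc b' * ‖y - f x‖ < b' * (a / b' * r) := mul_lt_mul_of_pos_left hy hb'
            _ = a * r := by field_simp
        have h4 : a * ‖x' - x‖ < a * r := by linarith
        exact lt_of_mul_lt_mul_left h4 ha.le
      · obtain ⟨x', hx', hle⟩ := h 0 (f 0 + v)
        refine ⟨0, x', 1, ?_, one_pos, ?_⟩
        · rintro rfl
          apply hv
          have := hx'
          simpa using this
        · rw [hx']
          rw [add_sub_cancel_left] at hle ⊢
          rw [one_smul, sub_self, hN.zero]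
          linarith
  obtain ⟨⟨c, hc, hco⟩, hat⟩ := key
  have hd : ∀ v : Y, v ≠ 0 → DifferentiableAt ℝ N v := by
    intro v hv
    obtain ⟨a, b, t, hab, ht, hle⟩ := hat v hv
    exact hasFDerivAt_norm hp hpd hN hf hc hco hv hab ht hle
  exact ⟨hd, bump hN hd⟩

end Pool.Agent.Results.MP_8a3d3f_an.AttainedSlopes
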